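import Pool.Agent.Helper346.CdP.Quadrics

set_option autoImplicit false

namespace Pool.Agent.Results.MP_0f87c6_ag.PointlessCharTwo

open Pool.Agent.Helper346.Cd Pool.Agent.Helper346.CdP MvPolynomial

/-- There are a field `k` of cohomological dimension one (of characteristic two) and a smooth
complete intersection of two quadrics in `ℙ⁵` over `k` without rational points. -/
theorem result : ∃ (k : Type) (_ : Field k), CharP k 2 ∧
    CdEqOne Gal(SeparableClosure k/k) ∧
    ∃ f g : MvPolynomial (Fin 6) k, IsSmoothTwoQuadrics f g ∧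
      ¬ ∃ x : Fin 6 → k, x ≠ 0 ∧ eval x f = 0 ∧ eval x g = 0 :=
  quadrics_main

end Pool.Agent.Results.MP_0f87c6_ag.PointlessCharTwo
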